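import Mathlib

set_option autoImplicit false
open MeasureTheory Filter Topology
open scoped ENNReal NNReal ComplexConjugate

namespace H457R2

/-- For every `m` there are `m` unit complex numbers with quantitative separation. -/
lemma exists_kappa (m : ℕ) : ∃ κ : ℝ, 0 ≤ κ ∧ κ < 1 ∧ ∃ Ω : Finset ℂ, Ω.card = m ∧
    (∀ a ∈ Ω, ‖a‖ = 1) ∧ ∀ a ∈ Ω, ∀ b ∈ Ω, a ≠ b → 8 * (1 - κ) ≤ ‖a - b‖ ^ 2 := by
  classical
  let e : ℕ → ℂ := fun j => Complex.exp (((1 / ((j : ℝ) + 1) : ℝ) : ℂ) * Complex.I)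
  have he : Function.Injective e := by
    intro i j hij
    have hb : ∀ j : ℕ, 0 < 1 / ((j : ℝ) + 1) ∧ 1 / ((j : ℝ) + 1) ≤ 1 := by
      intro j
      constructor
      · positivity
      · rw [div_le_one (by positivity)]
        have : (0 : ℝ) ≤ j := Nat.cast_nonneg j
        linarith
    have him : ∀ j : ℕ, ((((1 / ((j : ℝ) + 1) : ℝ) : ℂ) * Complex.I)).im = 1 / ((j : ℝ) + 1) := by
      intro j
      rw [Complex.mul_im, Complex.ofReal_re, Complex.ofReal_im, Complex.I_re, Complex.I_im]; ring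
    have hpi : (3 : ℝ) < Real.pi := Real.pi_gt_three
    have h := Complex.exp_inj_of_neg_pi_lt_of_le_pi
      (x := ((1 / ((i : ℝ) + 1) : ℝ) : ℂ) * Complex.I)
      (y := ((1 / ((j : ℝ) + 1) : ℝ) : ℂ) * Complex.I)
      (by rw [him]; have := (hb i).1; linarith) (by rw [him]; have := (hb i).2; linarith)
      (by rw [him]; have := (hb j).1; linarith) (by rw [him]; have := (hb j).2; linarith) hij
    have h2 := congrArg Complex.im h
    rw [him, him] at h2
    have hi : (0 : ℝ) < (i : ℝ) + 1 := by positivity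
    have hj : (0 : ℝ) < (j : ℝ) + 1 := by positivity
    have h3 : ((i : ℝ) + 1) = (j : ℝ) + 1 := by
      field_simp at h2
      linarith
    have h4 : (i : ℝ) = j := by linarith
    exact_mod_cast h4
  let Ω : Finset ℂ := (Finset.range m).image e
  have hcard : Ω.card = m := by
    rw [Finset.card_image_of_injective _ he, Finset.card_range]
  have hun : ∀ a ∈ Ω, ‖a‖ = 1 := by
    intro a ha
    simp only [Ω, Finset.mem_image] at ha
    obtain ⟨j, -, rfl⟩ := ha
    exact Complex.norm_exp_ofReal_mul_I _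
  obtain ⟨δ, hδ, hsep⟩ : ∃ δ : ℝ, 0 < δ ∧ ∀ a ∈ Ω, ∀ b ∈ Ω, a ≠ b → δ ≤ ‖a - b‖ ^ 2 := by
    by_cases hne : Ω.offDiag.Nonempty
    · obtain ⟨p, hp, hmin⟩ := Finset.exists_min_image Ω.offDiag (fun p => ‖p.1 - p.2‖ ^ 2) hne
      refine ⟨‖p.1 - p.2‖ ^ 2, ?_, ?_⟩
      · have : p.1 - p.2 ≠ 0 := sub_ne_zero.mpr (Finset.mem_offDiag.mp hp).2.2
        positivity
      · intro a ha b hb hab
        exact hmin (a, b) (Finset.mem_offDiag.mpr ⟨ha, hb, hab⟩)
    · refine ⟨1, one_pos, ?_⟩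
      intro a ha b hb hab
      exact absurd ⟨(a, b), Finset.mem_offDiag.mpr ⟨ha, hb, hab⟩⟩ hne
  refine ⟨1 - min δ 8 / 8, ?_, ?_, Ω, hcard, hun, ?_⟩
  · have := min_le_right δ 8
    linarith
  · have : 0 < min δ 8 := lt_min hδ (by norm_num)
    linarith
  · intro a ha b hb hab
    have h1 := hsep a ha b hb hab
    have h2 := min_le_left δ 8
    linarith

/-- The phase constant. -/
noncomputable def kap (m : ℕ) : ℝ := (exists_kappa m).choose

lemma kap_nonneg (m : ℕ) : 0 ≤ kap m := (exists_kappa m).choose_spec.1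
lemma kap_lt_one (m : ℕ) : kap m < 1 := (exists_kappa m).choose_spec.2.1

/-- The set of phases. -/
noncomputable def Om (m : ℕ) : Finset ℂ := (exists_kappa m).choose_spec.2.2.choose

lemma Om_card (m : ℕ) : (Om m).card = m := (exists_kappa m).choose_spec.2.2.choose_spec.1
lemma Om_norm (m : ℕ) : ∀ a ∈ Om m, ‖a‖ = 1 := (exists_kappa m).choose_spec.2.2.choose_spec.2.1
lemma Om_sep (m : ℕ) : ∀ a ∈ Om m, ∀ b ∈ Om m, a ≠ b → 8 * (1 - kap m) ≤ ‖a - b‖ ^ 2 :=
  (exists_kappa m).choose_spec.2.2.choose_spec.2.2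

/-- Two complex numbers are nearly opposite. -/
def Opp (κ : ℝ) (F g : ℂ) : Prop := (F * conj g).re < -(κ * (‖F‖ * ‖g‖))

lemma not_opp_lower {κ : ℝ} {F g : ℂ} (_hκ : 0 ≤ κ) (h : ¬ Opp κ F g) {x y : ℝ} (hx : 0 ≤ x)
    (hy : 0 ≤ y) :
    (1 - κ ^ 2) * (x * ‖F‖) ^ 2 ≤ ‖(x : ℂ) * F + (y : ℂ) * g‖ ^ 2 ∧
    (1 - κ ^ 2) * (y * ‖g‖) ^ 2 ≤ ‖(x : ℂ) * F + (y : ℂ) * g‖ ^ 2 := by
  unfold Opp at h
  push Not at h
  have hexp : ‖(x : ℂ) * F + (y : ℂ) * g‖ ^ 2 = (x * ‖F‖) ^ 2 + (y * ‖g‖) ^ 2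
      + 2 * (x * y) * (F * conj g).re := by
    rw [Complex.sq_norm, Complex.normSq_add, Complex.normSq_mul, Complex.normSq_mul,
      Complex.normSq_ofReal, Complex.normSq_ofReal, ← Complex.sq_norm, ← Complex.sq_norm]
    have : (↑x * F * conj (↑y * g)).re = (x * y) * (F * conj g).re := by
      have h1 : (↑x * F * conj ((y : ℂ) * g)) = ((x * y : ℝ) : ℂ) * (F * conj g) := by
        rw [map_mul, Complex.conj_ofReal]; push_cast; ring
      rw [h1, Complex.re_ofReal_mul]
    rw [this]; ring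
  have h2 : 2 * (x * y) * (F * conj g).re ≥ 2 * (x * y) * (-(κ * (‖F‖ * ‖g‖))) := by
    apply mul_le_mul_of_nonneg_left h
    positivity
  rw [hexp]
  constructor
  · nlinarith [sq_nonneg (y * ‖g‖ - κ * (x * ‖F‖))]
  · nlinarith [sq_nonneg (x * ‖F‖ - κ * (y * ‖g‖))]

lemma opp_disjoint {m : ℕ} {F v a b : ℂ} (ha : a ∈ Om m) (hb : b ∈ Om m) (hab : a ≠ b)
    (h1 : Opp (kap m) F (a * v)) (h2 : Opp (kap m) F (b * v)) : False := by
  have hna := Om_norm m a ha
  have hnb := Om_norm m b hb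
  have hsep := Om_sep m a ha b hb hab
  unfold Opp at h1 h2
  rw [norm_mul, hna, one_mul] at h1
  rw [norm_mul, hnb, one_mul] at h2
  have hF : F ≠ 0 := by
    rintro rfl
    simp at h1
  have hv : v ≠ 0 := by
    rintro rfl
    simp at h1
  set X := ‖F‖ with hX
  set Y := ‖v‖ with hY
  have hXp : 0 < X := norm_pos_iff.mpr hF
  have hYp : 0 < Y := norm_pos_iff.mpr hv
  have key : ∀ c : ℂ, ‖c‖ = 1 → (F * conj (c * v)).re < -(kap m * (X * Y)) →
      ‖(Y : ℂ) * F + (X : ℂ) * (c * v)‖ ^ 2 < 2 * (1 - kap m) * (X * Y) ^ 2 := by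
    intro c hc h
    have hexp : ‖(Y : ℂ) * F + (X : ℂ) * (c * v)‖ ^ 2 = (Y * X) ^ 2 + (X * Y) ^ 2
        + 2 * (X * Y) * (F * conj (c * v)).re := by
      rw [Complex.sq_norm, Complex.normSq_add, Complex.normSq_mul, Complex.normSq_mul,
        Complex.normSq_ofReal, Complex.normSq_ofReal, ← Complex.sq_norm, ← Complex.sq_norm,
        norm_mul c v, hc, one_mul, ← hX, ← hY]
      have : (↑Y * F * conj (↑X * (c * v))).re = (X * Y) * (F * conj (c * v)).re := by
        have h1 : (↑Y * F * conj ((X : ℂ) * (c * v))) = ((X * Y : ℝ) : ℂ) * (F * conj (c * v)) := by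
          rw [map_mul, Complex.conj_ofReal]; push_cast; ring
        rw [h1, Complex.re_ofReal_mul]
      rw [this]; ring
    rw [hexp]
    have hXY : 0 < X * Y := by positivity
    nlinarith
  have ka := key a hna h1
  have kb := key b hnb h2
  have hpar : ‖((Y : ℂ) * F + (X : ℂ) * (a * v)) - ((Y : ℂ) * F + (X : ℂ) * (b * v))‖ ^ 2
      ≤ 2 * ‖(Y : ℂ) * F + (X : ℂ) * (a * v)‖ ^ 2 + 2 * ‖(Y : ℂ) * F + (X : ℂ) * (b * v)‖ ^ 2 := by
    set u := (Y : ℂ) * F + (X : ℂ) * (a * v)
    set w := (Y : ℂ) * F + (X : ℂ) * (b * v)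
    have h := norm_sub_le u w
    have h0 : 0 ≤ ‖u - w‖ := norm_nonneg _
    nlinarith [sq_nonneg (‖u‖ - ‖w‖), norm_nonneg u, norm_nonneg w]
  have hdiff : ((Y : ℂ) * F + (X : ℂ) * (a * v)) - ((Y : ℂ) * F + (X : ℂ) * (b * v))
      = (X : ℂ) * v * (a - b) := by ring
  rw [hdiff, norm_mul, norm_mul, Complex.norm_real, Real.norm_of_nonneg hXp.le, ← hY] at hpar
  have hXY : 0 < (X * Y) ^ 2 := by positivity
  have h3 : (X * Y * ‖a - b‖) ^ 2 < 8 * (1 - kap m) * (X * Y) ^ 2 := by
    calc (X * Y * ‖a - b‖) ^ 2 ≤ _ := hpar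
      _ < 2 * (2 * (1 - kap m) * (X * Y) ^ 2) + 2 * (2 * (1 - kap m) * (X * Y) ^ 2) := by
          linarith
      _ = 8 * (1 - kap m) * (X * Y) ^ 2 := by ring
  rw [mul_pow] at h3
  nlinarith

lemma measurableSet_opp {α : Type*} [MeasurableSpace α] {F g : α → ℂ} (hF : Measurable F)
    (hg : Measurable g) (κ : ℝ) : MeasurableSet {z | Opp κ (F z) (g z)} := by
  unfold Opp
  apply measurableSet_lt
  · exact Complex.measurable_re.comp (hF.mul (Complex.continuous_conj.measurable.comp hg))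
  · exact ((hF.norm.mul hg.norm).const_mul κ).neg

/-- Key averaging lemma: a phase can be chosen so that `F` and `a v` are nearly opposite only on
a set of small measure. -/
lemma key_phase {α : Type*} [MeasurableSpace α] (ν : Measure α) (m : ℕ) (hm : 0 < m)
    {F v : α → ℂ} (hF : Measurable F) (hv : Measurable v) :
    ∃ a : ℂ, ‖a‖ = 1 ∧ ν {z | Opp (kap m) (F z) (a * v z)} ≤ ν Set.univ / m := by
  have hsum : ∑ a ∈ Om m, ν {z | Opp (kap m) (F z) (a * v z)} ≤ ν Set.univ := by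
    rw [← measure_biUnion_finset]
    · exact measure_mono (Set.subset_univ _)
    · intro a ha b hb hab
      rw [Function.onFun, Set.disjoint_left]
      intro z hz1 hz2
      exact opp_disjoint ha hb hab hz1 hz2
    · intro a _
      exact measurableSet_opp hF (hv.const_mul a) _
  by_contra hcon
  push Not at hcon
  have h1 : ∀ a ∈ Om m, ν Set.univ / m < ν {z | Opp (kap m) (F z) (a * v z)} :=
    fun a ha => hcon a (Om_norm m a ha)
  have hne : (Om m).Nonempty := by
    rw [← Finset.card_pos, Om_card]; exact hm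
  have h2 : ∑ _a ∈ Om m, ν Set.univ / m < ∑ a ∈ Om m, ν {z | Opp (kap m) (F z) (a * v z)} :=
    ENNReal.sum_lt_sum_of_nonempty hne h1
  rw [Finset.sum_const, Om_card, nsmul_eq_mul] at h2
  have h3 : (m : ℝ≥0∞) * (ν Set.univ / m) = ν Set.univ := by
    apply ENNReal.mul_div_cancel
    · exact_mod_cast hm.ne'
    · exact ENNReal.natCast_ne_top m
  rw [h3] at h2
  exact absurd hsum (not_le.mpr h2)

/-- Iterating the key lemma: unimodular coefficients making a linear combination comparable to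
the maximum off a small set. -/
lemma block (m : ℕ) (hm : 0 < m) (D : ℕ) : ∃ lam : ℝ, 0 < lam ∧ lam ≤ 1 ∧
    ∀ {α : Type} [MeasurableSpace α] (ν : Measure α) (v : Fin D → α → ℂ),
      (∀ i, Measurable (v i)) → ∃ a : Fin D → ℂ, (∀ i, ‖a i‖ = 1) ∧
        ν {z | ∃ i, ‖∑ j, a j * v j z‖ < lam * ‖v i z‖} ≤ D * (ν Set.univ / m) := by
  induction D with
  | zero =>
    refine ⟨1, one_pos, le_rfl, ?_⟩
    intro α _ ν v _
    refine ⟨fun i => i.elim0, fun i => i.elim0, ?_⟩
    have : {z : α | ∃ i : Fin 0, ‖∑ j : Fin 0, (fun i => i.elim0 : Fin 0 → ℂ) j * v j z‖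
        < 1 * ‖v i z‖} = ∅ := by
      ext z
      simp only [Set.mem_ofPred_eq, Set.mem_empty_iff_false, iff_false, not_exists]
      intro i
      exact i.elim0
    rw [this]
    simp
  | succ D ih =>
    obtain ⟨lam, hlam0, hlam1, H⟩ := ih
    have hk0 := kap_nonneg m
    have hk1 := kap_lt_one m
    have hs2 : 0 < 1 - kap m ^ 2 := by nlinarith
    have hs2' : 1 - kap m ^ 2 ≤ 1 := by nlinarith [sq_nonneg (kap m)]
    set s := Real.sqrt (1 - kap m ^ 2) with hs
    have hs0 : 0 < s := Real.sqrt_pos.mpr hs2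
    have hs1 : s ≤ 1 := by
      rw [hs, Real.sqrt_le_iff]; exact ⟨zero_le_one, by simpa using hs2'⟩
    have hsq : s ^ 2 = 1 - kap m ^ 2 := Real.sq_sqrt hs2.le
    refine ⟨s * lam, by positivity, by nlinarith, ?_⟩
    intro α _ ν v hv
    obtain ⟨a, ha, hbad⟩ := H ν (fun i => v i.castSucc) (fun i => hv _)
    set F : α → ℂ := fun z => ∑ j : Fin D, a j * v j.castSucc z with hFdef
    have hF : Measurable F := by
      apply Finset.measurable_fun_sum
      intro j _
      exact (hv _).const_mul _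
    obtain ⟨b, hb, hbad2⟩ := key_phase ν m hm hF (hv (Fin.last D))
    refine ⟨Fin.snoc a b, ?_, ?_⟩
    · intro i
      refine Fin.lastCases ?_ ?_ i
      · simpa using hb
      · intro j; simpa using ha j
    · have hsub : {z | ∃ i, ‖∑ j, (Fin.snoc a b : Fin (D + 1) → ℂ) j * v j z‖
          < s * lam * ‖v i z‖} ⊆
          {z | ∃ i : Fin D, ‖∑ j : Fin D, a j * v j.castSucc z‖ < lam * ‖v i.castSucc z‖} ∪
          {z | Opp (kap m) (F z) (b * v (Fin.last D) z)} := by
        intro z hz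
        simp only [Set.mem_ofPred_eq] at hz
        by_contra hnot
        rw [Set.mem_union, not_or] at hnot
        obtain ⟨hn1, hn2⟩ := hnot
        simp only [Set.mem_ofPred_eq, not_exists, not_lt] at hn1 hn2
        obtain ⟨i, hi⟩ := hz
        rw [Fin.sum_univ_castSucc] at hi
        simp only [Fin.snoc_castSucc, Fin.snoc_last] at hi
        have hlow := not_opp_lower hk0 hn2 (x := 1) (y := 1) zero_le_one zero_le_one
        simp only [Complex.ofReal_one, one_mul] at hlow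
        rw [← hsq] at hlow
        have hA : s * ‖F z‖ ≤ ‖F z + b * v (Fin.last D) z‖ := by
          apply le_of_sq_le_sq _ (norm_nonneg _)
          rw [mul_pow]; exact hlow.1
        have hB : s * ‖b * v (Fin.last D) z‖ ≤ ‖F z + b * v (Fin.last D) z‖ := by
          apply le_of_sq_le_sq _ (norm_nonneg _)
          rw [mul_pow]; exact hlow.2
        rw [norm_mul, hb, one_mul] at hB
        have hFz : (∑ x : Fin D, a x * v x.castSucc z) = F z := rfl
        rw [hFz] at hi
        have hi2 : s * lam * ‖v i z‖ ≤ ‖F z + b * v (Fin.last D) z‖ := by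
          revert hi
          refine Fin.lastCases ?_ ?_ i
          · intro _
            calc s * lam * ‖v (Fin.last D) z‖ ≤ s * 1 * ‖v (Fin.last D) z‖ := by gcongr
              _ = s * ‖v (Fin.last D) z‖ := by ring
              _ ≤ _ := hB
          · intro j _
            have := hn1 j
            rw [hFz] at this
            calc s * lam * ‖v j.castSucc z‖ = s * (lam * ‖v j.castSucc z‖) := by ring
              _ ≤ s * ‖F z‖ := by gcongr
              _ ≤ _ := hA
        linarith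
      calc ν _ ≤ ν _ := measure_mono hsub
        _ ≤ _ := measure_union_le _ _
        _ ≤ D * (ν Set.univ / m) + ν Set.univ / m := add_le_add hbad hbad2
        _ = ((D + 1 : ℕ) : ℝ≥0∞) * (ν Set.univ / m) := by push_cast; ring

end H457R2
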