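import Pool.Agent.H457R2.RadialStep

set_option autoImplicit false
open MeasureTheory Filter Topology
open scoped ENNReal NNReal ComplexConjugate

namespace H457R2

variable {E : Type} [NormedAddCommGroup E] [InnerProductSpace ℂ E]

/-- The radii. -/
noncomputable def rad (k : ℕ) : ℝ := 1 - 1 / ((k : ℝ) + 2)

lemma rad_pos (k : ℕ) : 0 < rad k := by
  unfold rad
  have : 1 / ((k : ℝ) + 2) < 1 := by
    rw [div_lt_one (by positivity)]
    have : (0 : ℝ) ≤ k := Nat.cast_nonneg k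
    linarith
  linarith

lemma rad_lt_one (k : ℕ) : rad k < 1 := by
  unfold rad
  have : 0 < 1 / ((k : ℝ) + 2) := by positivity
  linarith

lemma rad_lt_succ (k : ℕ) : rad k < rad (k + 1) := by
  unfold rad
  have : 1 / (((k + 1 : ℕ) : ℝ) + 2) < 1 / ((k : ℝ) + 2) := by
    apply one_div_lt_one_div_of_lt (by positivity)
    push_cast; linarith
  linarith

lemma rad_mono : StrictMono rad := strictMono_nat_of_lt_succ rad_lt_succ

lemma exists_rad_gt {x : ℝ} (hx : x < 1) : ∃ m : ℕ, x < rad m := by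
  obtain ⟨m, hm⟩ := exists_nat_one_div_lt (sub_pos.mpr hx)
  refine ⟨m, ?_⟩
  unfold rad
  have : 1 / ((m : ℝ) + 2) < 1 / ((m : ℝ) + 1) := by
    apply one_div_lt_one_div_of_lt (by positivity)
    linarith
  linarith

/-- The phase gain. -/
noncomputable def sgain (k : ℕ) : ℝ := Real.sqrt (1 - kap (2 ^ k) ^ 2)

lemma sgain_pos (k : ℕ) : 0 < sgain k := by
  unfold sgain
  apply Real.sqrt_pos.mpr
  have h0 := kap_nonneg (2 ^ k)
  have h1 := kap_lt_one (2 ^ k)
  nlinarith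

lemma sgain_sq (k : ℕ) : sgain k ^ 2 = 1 - kap (2 ^ k) ^ 2 := by
  unfold sgain
  apply Real.sq_sqrt
  have h0 := kap_nonneg (2 ^ k)
  have h1 := kap_lt_one (2 ^ k)
  nlinarith

/-- The trivial term. -/
noncomputable def Term.zero (E : Type) [NormedAddCommGroup E] [InnerProductSpace ℂ E] : Term E where
  N := 1
  g := fun _ => 0
  g' := fun _ => 0
  B := 0
  S := 0
  hB := le_rfl
  hN := le_rfl
  hder := fun z => hasFDerivAt_const _ _
  hg := by intro z; simp
  hg' := by intro z; simp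
  hhom := by intro r z; simp

/-- Relation between consecutive terms. -/
def Next [MeasurableSpace E] (ν : Measure E) (k : ℕ) (t t' : Term E) : Prop :=
  t'.S = t.S + t.B ∧ t'.B * rad k ^ t'.N ≤ (1 / 2) ^ (k + 1) ∧
      t'.B * t'.N * rad k ^ (t'.N - 1) ≤ (1 / 2) ^ (k + 1) ∧
      ν {z | ‖z‖ = 1 ∧ ¬ ((|t.S + t.B| + (k + 1 : ℕ) + 2) / sgain (k + 1)
        ≤ rad (k + 1) ^ t'.N * ‖t'.g z‖)} ≤ ν Set.univ / (2 ^ (k + 1) : ℕ) ∧
      ν {z | Opp (kap (2 ^ k)) (t.g z) (t'.g z)} ≤ ν Set.univ / (2 ^ k : ℕ)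

lemma exists_next [FiniteDimensional ℂ E] [MeasurableSpace E] [BorelSpace E] (ν : Measure E)
    (k : ℕ) (t : Term E) : ∃ t' : Term E, Next ν k t t' := by
  have hs := sgain_pos (k + 1)
  exact exists_term ν t (2 ^ k) (2 ^ (k + 1)) (by positivity) (by positivity)
    ((|t.S + t.B| + (k + 1 : ℕ) + 2) / sgain (k + 1)) ((1 / 2) ^ (k + 1)) (rad k) (rad (k + 1))
    (by positivity) (by positivity) (rad_pos k) (rad_lt_succ k) (rad_lt_one _)

/-- The sequence of terms. -/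
noncomputable def seq [FiniteDimensional ℂ E] [MeasurableSpace E] [BorelSpace E]
    (ν : Measure E) : ℕ → Term E
  | 0 => Term.zero E
  | k + 1 => (exists_next ν k (seq ν k)).choose

lemma seq_next [FiniteDimensional ℂ E] [MeasurableSpace E] [BorelSpace E]
    (ν : Measure E) (k : ℕ) : Next ν k (seq ν k) (seq ν (k + 1)) :=
  (exists_next ν k (seq ν k)).choose_spec

section
variable [FiniteDimensional ℂ E] [MeasurableSpace E] [BorelSpace E] (ν : Measure E)

lemma seq_S (k : ℕ) : (seq ν k).S = ∑ j ∈ Finset.range k, (seq ν j).B := by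
  induction k with
  | zero => rfl
  | succ k ih => rw [Finset.sum_range_succ, ← ih]; exact (seq_next ν k).1

lemma seq_bound (k m : ℕ) (hk : m < k) (z : E) (hz : ‖z‖ ≤ rad m) :
    ‖(seq ν k).g z‖ ≤ (1 / 2) ^ k := by
  obtain ⟨j, rfl⟩ : ∃ j, k = j + 1 := ⟨k - 1, by omega⟩
  have hmj : rad m ≤ rad j := rad_mono.monotone (by omega)
  have hB := (seq ν (j + 1)).hB
  calc ‖(seq ν (j + 1)).g z‖ ≤ (seq ν (j + 1)).B * ‖z‖ ^ (seq ν (j + 1)).N := (seq ν (j + 1)).hg z
    _ ≤ (seq ν (j + 1)).B * rad j ^ (seq ν (j + 1)).N := by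
        gcongr
        exact hz.trans hmj
    _ ≤ _ := (seq_next ν j).2.1

lemma seq_bound' (k m : ℕ) (hk : m < k) (z : E) (hz : ‖z‖ ≤ rad m) :
    ‖(seq ν k).g' z‖ ≤ (1 / 2) ^ k := by
  obtain ⟨j, rfl⟩ : ∃ j, k = j + 1 := ⟨k - 1, by omega⟩
  have hmj : rad m ≤ rad j := rad_mono.monotone (by omega)
  have hB := (seq ν (j + 1)).hB
  calc ‖(seq ν (j + 1)).g' z‖
      ≤ (seq ν (j + 1)).B * (seq ν (j + 1)).N * ‖z‖ ^ ((seq ν (j + 1)).N - 1) :=
        (seq ν (j + 1)).hg' z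
    _ ≤ (seq ν (j + 1)).B * (seq ν (j + 1)).N * rad j ^ ((seq ν (j + 1)).N - 1) := by
        gcongr
        exact hz.trans hmj
    _ ≤ _ := (seq_next ν j).2.2.1

/-- The function. -/
noncomputable def fn (z : E) : ℂ := ∑' k, (seq ν k).g z

lemma summable_seq (z : E) (hz : ‖z‖ < 1) : Summable fun k => (seq ν k).g z := by
  obtain ⟨m, hm⟩ := exists_rad_gt hz
  apply Summable.of_norm_bounded_eventually_nat
    (summable_geometric_of_lt_one (by norm_num) (by norm_num : (1 / 2 : ℝ) < 1))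
  filter_upwards [eventually_gt_atTop m] with k hk
  exact seq_bound ν k m hk z hm.le

lemma fn_hasFDerivAt (z : E) (hz : ‖z‖ < 1) :
    HasFDerivAt (fn ν) (∑' k, (seq ν k).g' z) z := by
  obtain ⟨m, hm⟩ := exists_rad_gt hz
  let u : ℕ → ℝ := fun k => if k ≤ m then (seq ν k).B * (seq ν k).N else (1 / 2) ^ k
  have hu : Summable u := by
    rw [← summable_nat_add_iff (m + 1)]
    have : (fun k => u (k + (m + 1))) = fun k => (1 / 2 : ℝ) ^ (k + (m + 1)) := by
      ext k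
      simp only [u]
      rw [if_neg (by omega)]
    rw [this, summable_nat_add_iff (m + 1)]
    exact summable_geometric_of_lt_one (by norm_num) (by norm_num)
  have hball : IsPreconnected (Metric.ball (0 : E) (rad m)) := by
    letI : NormedSpace ℝ E := NormedSpace.restrictScalars ℝ ℂ E
    exact (convex_ball (0 : E) (rad m)).isPreconnected
  apply hasFDerivAt_tsum_of_isPreconnected hu Metric.isOpen_ball hball
    (f := fun k => (seq ν k).g) (f' := fun k => (seq ν k).g') (x₀ := 0)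
  · intro k x _
    exact (seq ν k).hder x
  · intro k x hx
    have hx' : ‖x‖ < rad m := by simpa using hx
    simp only [u]
    split_ifs with hk
    · have hB := (seq ν k).hB
      calc ‖(seq ν k).g' x‖ ≤ (seq ν k).B * (seq ν k).N * ‖x‖ ^ ((seq ν k).N - 1) :=
            (seq ν k).hg' x
        _ ≤ (seq ν k).B * (seq ν k).N * 1 := by
            gcongr
            apply pow_le_one₀ (norm_nonneg _)
            exact (hx'.trans (rad_lt_one m)).le
        _ = _ := by ring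
    · exact seq_bound' ν k m (by omega) x hx'.le
  · simpa using rad_pos m
  · apply summable_seq
    simp
  · simpa using hm

lemma fn_lower (k : ℕ) (z : E) (hz : ‖z‖ = 1)
    (hsize : |(seq ν k).S| + k + 2 ≤ sgain k * (rad k ^ (seq ν k).N * ‖(seq ν k).g z‖))
    (hph : ¬ Opp (kap (2 ^ k)) ((seq ν k).g z) ((seq ν (k + 1)).g z))
    (r : ℝ) (hr1 : rad k ≤ r) (hr2 : r ≤ rad (k + 1)) :
    (k : ℝ) ≤ ‖fn ν ((r : ℂ) • z)‖ := by
  have hr0 : 0 < r := (rad_pos k).trans_le hr1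
  have hrlt : r < 1 := hr2.trans_lt (rad_lt_one _)
  have hnorm : ‖(r : ℂ) • z‖ = r := by
    rw [norm_smul, hz, mul_one, Complex.norm_real, Real.norm_of_nonneg hr0.le]
  have hsum := summable_seq ν ((r : ℂ) • z) (by rw [hnorm]; exact hrlt)
  have hdecomp := hsum.sum_add_tsum_nat_add (k + 2)
  rw [Finset.sum_range_succ, Finset.sum_range_succ] at hdecomp
  -- main part
  have hmain : |(seq ν k).S| + k + 2 ≤
      ‖(seq ν k).g ((r : ℂ) • z) + (seq ν (k + 1)).g ((r : ℂ) • z)‖ := by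
    rw [(seq ν k).hhom, (seq ν (k + 1)).hhom]
    have hl := (not_opp_lower (kap_nonneg (2 ^ k)) hph (x := r ^ (seq ν k).N)
      (y := r ^ (seq ν (k + 1)).N) (by positivity) (by positivity)).1
    rw [← sgain_sq, ← mul_pow] at hl
    push_cast at hl
    have hl2 : sgain k * (r ^ (seq ν k).N * ‖(seq ν k).g z‖) ≤
        ‖(r : ℂ) ^ (seq ν k).N * (seq ν k).g z +
          (r : ℂ) ^ (seq ν (k + 1)).N * (seq ν (k + 1)).g z‖ :=
      le_of_sq_le_sq hl (norm_nonneg _)
    refine hsize.trans (le_trans ?_ hl2)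
    have hs := (sgain_pos k).le
    have hrk := (rad_pos k).le
    gcongr
  have hlow : ‖∑ j ∈ Finset.range k, (seq ν j).g ((r : ℂ) • z)‖ ≤ |(seq ν k).S| := by
    refine le_trans ?_ (le_abs_self _)
    rw [seq_S]
    refine (norm_sum_le _ _).trans (Finset.sum_le_sum ?_)
    intro j _
    have hB := (seq ν j).hB
    calc ‖(seq ν j).g ((r : ℂ) • z)‖ ≤ (seq ν j).B * ‖(r : ℂ) • z‖ ^ (seq ν j).N :=
          (seq ν j).hg _
      _ ≤ (seq ν j).B * 1 := by
          gcongr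
          apply pow_le_one₀ (norm_nonneg _)
          rw [hnorm]; exact hrlt.le
      _ = _ := mul_one _
  have htail : ‖∑' j, (seq ν (j + (k + 2))).g ((r : ℂ) • z)‖ ≤ 1 := by
    have hgs : HasSum (fun j : ℕ => (1 / 2 : ℝ) * (1 / 2) ^ j) (1 / 2 * 2) :=
      hasSum_geometric_two.mul_left (1 / 2)
    have h12 : (1 / 2 * 2 : ℝ) = 1 := by norm_num
    rw [h12] at hgs
    apply tsum_of_norm_bounded hgs
    intro j
    refine (seq_bound ν (j + (k + 2)) (k + 1) (by omega) _ (by rw [hnorm]; exact hr2)).trans ?_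
    have : (1 / 2 : ℝ) * (1 / 2) ^ j = (1 / 2) ^ (j + 1) := by rw [pow_succ]; ring
    rw [this]
    exact pow_le_pow_of_le_one (by norm_num) (by norm_num) (by omega)
  have hfn : fn ν ((r : ℂ) • z) = ((seq ν k).g ((r : ℂ) • z) + (seq ν (k + 1)).g ((r : ℂ) • z))
      + (∑ j ∈ Finset.range k, (seq ν j).g ((r : ℂ) • z)
        + ∑' j, (seq ν (j + (k + 2))).g ((r : ℂ) • z)) := by
    unfold fn
    rw [← hdecomp]; ring
  rw [hfn]
  set A := (seq ν k).g ((r : ℂ) • z) + (seq ν (k + 1)).g ((r : ℂ) • z)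
  set C := ∑ j ∈ Finset.range k, (seq ν j).g ((r : ℂ) • z)
  set G := ∑' j, (seq ν (j + (k + 2))).g ((r : ℂ) • z)
  have h1 : ‖A‖ ≤ ‖A + (C + G)‖ + ‖C + G‖ := by
    have := norm_sub_le (A + (C + G)) (C + G)
    simpa using this
  have h2 : ‖C + G‖ ≤ ‖C‖ + ‖G‖ := norm_add_le _ _
  linarith

lemma fn_tendsto (z : E) (hz : ‖z‖ = 1) (K : ℕ) (hK : 1 ≤ K)
    (hsize : ∀ k, K ≤ k →
      |(seq ν k).S| + k + 2 ≤ sgain k * (rad k ^ (seq ν k).N * ‖(seq ν k).g z‖))
    (hph : ∀ k, K ≤ k → ¬ Opp (kap (2 ^ k)) ((seq ν k).g z) ((seq ν (k + 1)).g z)) :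
    Tendsto (fun r : ℝ => fn ν ((r : ℂ) • z)) (𝓝[<] (1 : ℝ)) (Bornology.cobounded ℂ) := by
  rw [← tendsto_norm_atTop_iff_cobounded, tendsto_atTop]
  intro b
  obtain ⟨M, hM⟩ := exists_nat_ge b
  set K' := max K M with hK'
  have hmem : Set.Ico (rad K') 1 ∈ 𝓝[<] (1 : ℝ) := Ico_mem_nhdsLT (rad_lt_one K')
  filter_upwards [hmem] with r hr
  obtain ⟨hr1, hr2⟩ := hr
  classical
  have hex : ∃ k, K' ≤ k ∧ r ≤ rad (k + 1) := by
    obtain ⟨m, hm⟩ := exists_rad_gt hr2
    refine ⟨max K' m, le_max_left _ _, ?_⟩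
    exact hm.le.trans (rad_mono.monotone (by omega))
  set k := Nat.find hex with hk
  have hk1 := (Nat.find_spec hex).1
  have hk2 := (Nat.find_spec hex).2
  rw [← hk] at hk1 hk2
  have hk3 : rad k ≤ r := by
    rcases Nat.eq_or_lt_of_le hk1 with h | h
    · rw [← h]; exact hr1
    · have hmin := Nat.find_min hex (m := k - 1) (by omega)
      push Not at hmin
      have h2 := hmin (by omega)
      have h3 : k - 1 + 1 = k := by omega
      rw [h3] at h2
      exact h2.le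
  have hlow := fn_lower ν k z hz (hsize k (by omega)) (hph k (by omega)) r hk3 hk2
  have h4 : (M : ℝ) ≤ k := by
    have : M ≤ k := by omega
    exact_mod_cast this
  linarith

lemma tsum_half_ne_top (c : ℝ≥0∞) (hc : c ≠ ∞) : ∑' k : ℕ, c / ((2 ^ k : ℕ) : ℝ≥0∞) ≠ ∞ := by
  have : ∀ k : ℕ, c / ((2 ^ k : ℕ) : ℝ≥0∞) = c * (2⁻¹ : ℝ≥0∞) ^ k := by
    intro k
    rw [div_eq_mul_inv]
    push_cast
    rw [ENNReal.inv_pow]
  simp_rw [this]
  rw [ENNReal.tsum_mul_left, ENNReal.tsum_geometric]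
  apply ENNReal.mul_ne_top hc
  simp

theorem ae_tendsto [IsFiniteMeasure ν] :
    ∀ᵐ z ∂ν, ‖z‖ = 1 →
      Tendsto (fun r : ℝ => fn ν ((r : ℂ) • z)) (𝓝[<] (1 : ℝ)) (Bornology.cobounded ℂ) := by
  have h1 : ∀ᵐ z ∂ν, ∀ᶠ k in atTop, z ∉ {z : E | ‖z‖ = 1 ∧
      ¬ ((|(seq ν k).S + (seq ν k).B| + (k + 1 : ℕ) + 2) / sgain (k + 1)
        ≤ rad (k + 1) ^ (seq ν (k + 1)).N * ‖(seq ν (k + 1)).g z‖)} := by
    apply ae_eventually_notMem
    apply ne_top_of_le_ne_top (tsum_half_ne_top (ν Set.univ) (measure_ne_top _ _))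
    apply ENNReal.tsum_le_tsum
    intro k
    refine (seq_next ν k).2.2.2.1.trans ?_
    apply ENNReal.div_le_div_left
    exact_mod_cast Nat.pow_le_pow_right (by norm_num) (Nat.le_succ k)
  have h2 : ∀ᵐ z ∂ν, ∀ᶠ k in atTop,
      z ∉ {z : E | Opp (kap (2 ^ k)) ((seq ν k).g z) ((seq ν (k + 1)).g z)} := by
    apply ae_eventually_notMem
    apply ne_top_of_le_ne_top (tsum_half_ne_top (ν Set.univ) (measure_ne_top _ _))
    apply ENNReal.tsum_le_tsum
    intro k
    exact (seq_next ν k).2.2.2.2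
  filter_upwards [h1, h2] with z hz1 hz2 hz
  obtain ⟨K1, hK1⟩ := eventually_atTop.mp hz1
  obtain ⟨K2, hK2⟩ := eventually_atTop.mp hz2
  apply fn_tendsto ν z hz (max (K1 + 1) K2) (by omega)
  · intro k hk
    obtain ⟨j, rfl⟩ : ∃ j, k = j + 1 := ⟨k - 1, by omega⟩
    have h := hK1 j (by omega)
    simp only [Set.mem_ofPred_eq, not_and, not_not] at h
    have h' := h hz
    rw [div_le_iff₀ (sgain_pos (j + 1))] at h'
    rw [(seq_next ν j).1]
    linarith
  · intro k hk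
    exact hK2 k (by omega)

end

end H457R2
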