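import Pool.Agent.H457R2.RadialKey

set_option autoImplicit false
open MeasureTheory Filter Topology
open scoped ENNReal NNReal ComplexConjugate

namespace H457R2

variable {E : Type} [NormedAddCommGroup E] [InnerProductSpace ℂ E]

lemma exists_net [FiniteDimensional ℂ E] (ρ : ℝ) (hρ : ρ < 1) :
    ∃ (D : ℕ) (u : Fin D → E), (∀ i, ‖u i‖ = 1) ∧
      ∀ z : E, ‖z‖ = 1 → ∃ i, ρ ≤ ‖inner ℂ (u i) z‖ := by
  have : ProperSpace E := FiniteDimensional.proper ℂ E
  obtain ⟨t, ht1, ht2⟩ := (isCompact_sphere (0 : E) 1).elim_nhds_subcover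
    (fun u => {z | ρ < ‖inner ℂ u z‖}) (by
      intro x hx
      have hx1 : ‖x‖ = 1 := by simpa using hx
      apply (isOpen_lt continuous_const
        (by fun_prop : Continuous fun z : E => ‖inner ℂ x z‖)).mem_nhds
      simp only [Set.mem_ofPred_eq]
      rw [inner_self_eq_norm_sq_to_K, hx1]
      simpa using hρ)
  refine ⟨t.card, fun i => ((t.equivFin.symm i : t) : E), ?_, ?_⟩
  · intro i
    have := ht1 _ (t.equivFin.symm i).2
    simpa using this
  · intro z hz
    have hz' := ht2 (show z ∈ Metric.sphere (0 : E) 1 by simpa using hz)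
    simp only [Set.mem_iUnion, Set.mem_ofPred_eq] at hz'
    obtain ⟨x, hx, hlt⟩ := hz'
    refine ⟨t.equivFin ⟨x, hx⟩, ?_⟩
    simpa using hlt.le

/-- A homogeneous polynomial-like term. -/
structure Term (E : Type) [NormedAddCommGroup E] [InnerProductSpace ℂ E] where
  N : ℕ
  g : E → ℂ
  g' : E → (E →L[ℂ] ℂ)
  B : ℝ
  S : ℝ
  hB : 0 ≤ B
  hN : 1 ≤ N
  hder : ∀ z, HasFDerivAt g (g' z) z
  hg : ∀ z, ‖g z‖ ≤ B * ‖z‖ ^ N
  hg' : ∀ z, ‖g' z‖ ≤ B * N * ‖z‖ ^ (N - 1)
  hhom : ∀ (r : ℝ) (z : E), g ((r : ℂ) • z) = (r : ℂ) ^ N * g z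

lemma Term.continuous (t : Term E) : Continuous t.g := by
  rw [continuous_iff_continuousAt]
  intro z
  exact (t.hder z).continuousAt

/-- The one-step construction. -/
lemma exists_term [FiniteDimensional ℂ E] [MeasurableSpace E] [BorelSpace E] (ν : Measure E)
    (t : Term E) (m M : ℕ) (hm : 0 < m) (hM : 0 < M) (T ε r0 r1 : ℝ) (hT : 0 < T) (hε : 0 < ε)
    (h0 : 0 < r0) (h01 : r0 < r1) (h1 : r1 < 1) :
    ∃ t' : Term E, t'.S = t.S + t.B ∧ t'.B * r0 ^ t'.N ≤ ε ∧
      t'.B * t'.N * r0 ^ (t'.N - 1) ≤ ε ∧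
      ν {z | ‖z‖ = 1 ∧ ¬ (T ≤ r1 ^ t'.N * ‖t'.g z‖)} ≤ ν Set.univ / M ∧
      ν {z | Opp (kap m) (t.g z) (t'.g z)} ≤ ν Set.univ / m := by
  have hr1 : 0 < r1 := h0.trans h01
  have hr01 : r0 / r1 < 1 := (div_lt_one hr1).mpr h01
  set ρ : ℝ := (r0 / r1 + 1) / 2 with hρdef
  have hρ1 : ρ < 1 := by rw [hρdef]; linarith
  have hρ0 : r0 / r1 < ρ := by rw [hρdef]; linarith
  have hρpos : 0 < ρ := lt_trans (by positivity) hρ0
  set q : ℝ := r1 * ρ with hq
  have hq0 : r0 < q := by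
    have := (div_lt_iff₀ hr1).mp hρ0
    rw [hq]; linarith
  have hqpos : 0 < q := h0.trans hq0
  obtain ⟨D, u, hu1, hu2⟩ := exists_net (E := E) ρ hρ1
  obtain ⟨lam, hlam0, hlam1, Hblock⟩ := block ((D + 1) * M) (by positivity) D
  set x : ℝ := r0 / q with hx
  have hx0 : 0 < x := by positivity
  have hx1 : x < 1 := (div_lt_one hqpos).mpr hq0
  have htend := tendsto_self_mul_const_pow_of_lt_one hx0.le hx1
  have hδ : 0 < ε * lam * r0 / (T * D + 1) := by positivity
  obtain ⟨N, hNδ, hN1⟩ := ((htend.eventually (gt_mem_nhds hδ)).and (eventually_ge_atTop 1)).exists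
  have hmeasv : ∀ i : Fin D, Measurable fun z : E => (inner ℂ (u i) z) ^ N := by
    intro i
    exact (by fun_prop : Continuous fun z : E => (inner ℂ (u i) z) ^ N).measurable
  obtain ⟨a, ha1, ha2⟩ := Hblock ν (fun i z => (inner ℂ (u i) z) ^ N) hmeasv
  set c : ℝ := T / (lam * q ^ N) with hc
  have hc0 : 0 < c := by positivity
  set P : E → ℂ := fun z => ∑ j, a j * (inner ℂ (u j) z) ^ N with hP
  have hPmeas : Measurable fun z => (c : ℂ) * P z := by
    exact (by fun_prop : Continuous fun z : E => (c : ℂ) * P z).measurable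
  obtain ⟨w, hw1, hw2⟩ := key_phase ν m hm (F := t.g) (v := fun z => (c : ℂ) * P z)
    t.continuous.measurable hPmeas
  have hinner : ∀ (i : Fin D) (z : E), ‖inner ℂ (u i) z‖ ≤ ‖z‖ := by
    intro i z
    have := norm_inner_le_norm (𝕜 := ℂ) (u i) z
    rwa [hu1, one_mul] at this
  -- bound
  have hNpow : T * D * N * r0 ^ (N - 1) ≤ ε * lam * q ^ N := by
    have h2 : (N : ℝ) * x ^ N * (T * D + 1) ≤ ε * lam * r0 := by
      have := (lt_div_iff₀ (by positivity : (0 : ℝ) < T * D + 1)).mp hNδ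
      linarith
    have h3 : (N : ℝ) * x ^ N * (T * D) ≤ ε * lam * r0 := by
      have : 0 ≤ (N : ℝ) * x ^ N := by positivity
      nlinarith
    have h4 : x ^ N * q ^ N = r0 ^ N := by
      rw [← mul_pow, hx, div_mul_cancel₀ _ hqpos.ne']
    have h5 : r0 ^ N = r0 ^ (N - 1) * r0 := by
      rw [← pow_succ, Nat.sub_add_cancel hN1]
    have h6 : (N : ℝ) * (r0 ^ (N - 1) * r0) * (T * D) ≤ ε * lam * r0 * q ^ N := by
      rw [← h5, ← h4]
      calc (N : ℝ) * (x ^ N * q ^ N) * (T * D) = ((N : ℝ) * x ^ N * (T * D)) * q ^ N := by ring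
        _ ≤ (ε * lam * r0) * q ^ N := by gcongr
    have h7 : (T * D * N * r0 ^ (N - 1)) * r0 ≤ (ε * lam * q ^ N) * r0 := by
      calc (T * D * N * r0 ^ (N - 1)) * r0 = (N : ℝ) * (r0 ^ (N - 1) * r0) * (T * D) := by ring
        _ ≤ _ := h6
        _ = _ := by ring
    exact le_of_mul_le_mul_right h7 h0
  have hBN : c * D * N * r0 ^ (N - 1) ≤ ε := by
    have : c * D * N * r0 ^ (N - 1) = (T * D * N * r0 ^ (N - 1)) / (lam * q ^ N) := by
      rw [hc]; ring
    rw [this, div_le_iff₀ (by positivity)]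
    linarith
  refine ⟨{ N := N
            g := fun z => w * ((c : ℂ) * P z)
            g' := fun z => w • ((c : ℂ) • ∑ j, a j • ((N • (inner ℂ (u j) z) ^ (N - 1)) •
              (innerSL ℂ (u j))))
            B := c * D
            S := t.S + t.B
            hB := by positivity
            hN := hN1
            hder := ?_
            hg := ?_
            hg' := ?_
            hhom := ?_ }, rfl, ?_, ?_, ?_, ?_⟩
  · intro z
    apply HasFDerivAt.const_mul
    apply HasFDerivAt.const_mul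
    apply HasFDerivAt.fun_sum
    intro j _
    apply HasFDerivAt.const_mul
    have h := ((innerSL ℂ (u j)).hasFDerivAt (x := z)).pow N
    simpa using h
  · intro z
    simp only [norm_mul, hw1, one_mul, Complex.norm_real, Real.norm_of_nonneg hc0.le]
    have : ‖P z‖ ≤ D * ‖z‖ ^ N := by
      calc ‖P z‖ ≤ ∑ j, ‖a j * (inner ℂ (u j) z) ^ N‖ := norm_sum_le _ _
        _ ≤ ∑ _j : Fin D, ‖z‖ ^ N := by
            apply Finset.sum_le_sum
            intro j _
            rw [norm_mul, ha1, one_mul, norm_pow]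
            exact pow_le_pow_left₀ (norm_nonneg _) (hinner j z) N
        _ = D * ‖z‖ ^ N := by simp
    calc c * ‖P z‖ ≤ c * (D * ‖z‖ ^ N) := by gcongr
      _ = c * D * ‖z‖ ^ N := by ring
  · intro z
    simp only [norm_smul, hw1, one_mul, Complex.norm_real, Real.norm_of_nonneg hc0.le]
    have : ‖∑ j, a j • ((N • (inner ℂ (u j) z) ^ (N - 1)) • (innerSL ℂ (u j)))‖
        ≤ D * (N * ‖z‖ ^ (N - 1)) := by
      calc _ ≤ ∑ j, ‖a j • ((N • (inner ℂ (u j) z) ^ (N - 1)) • (innerSL ℂ (u j)))‖ :=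
            norm_sum_le _ _
        _ ≤ ∑ _j : Fin D, (N * ‖z‖ ^ (N - 1)) := by
            apply Finset.sum_le_sum
            intro j _
            rw [norm_smul, norm_smul, ha1, one_mul, innerSL_apply_norm, hu1, mul_one, nsmul_eq_mul,
              norm_mul, norm_pow, Complex.norm_natCast]
            gcongr
            exact hinner j z
        _ = D * (N * ‖z‖ ^ (N - 1)) := by simp
    calc c * _ ≤ c * (D * (N * ‖z‖ ^ (N - 1))) := by gcongr
      _ = c * D * N * ‖z‖ ^ (N - 1) := by ring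
  · intro r z
    simp only [hP, inner_smul_right, mul_pow]
    rw [Finset.mul_sum, Finset.mul_sum, Finset.mul_sum, Finset.mul_sum, Finset.mul_sum]
    apply Finset.sum_congr rfl
    intro j _
    ring
  · -- B * r0^N ≤ ε
    show c * D * r0 ^ N ≤ ε
    have h5 : r0 ^ N = r0 ^ (N - 1) * r0 := by
      rw [← pow_succ, Nat.sub_add_cancel hN1]
    have hr0 : r0 < 1 := h01.trans h1
    have hN1' : (1 : ℝ) ≤ N := by exact_mod_cast hN1
    calc c * D * r0 ^ N = (c * D * r0 ^ (N - 1)) * r0 := by rw [h5]; ring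
      _ ≤ (c * D * r0 ^ (N - 1)) * N := by
          apply mul_le_mul_of_nonneg_left _ (by positivity)
          linarith
      _ = c * D * N * r0 ^ (N - 1) := by ring
      _ ≤ ε := hBN
  · exact hBN
  · -- measure of the size-bad set
    show ν {z | ‖z‖ = 1 ∧ ¬ (T ≤ r1 ^ N * ‖w * ((c : ℂ) * P z)‖)} ≤ ν Set.univ / M
    have hsub : {z | ‖z‖ = 1 ∧ ¬ (T ≤ r1 ^ N * ‖w * ((c : ℂ) * P z)‖)} ⊆
        {z | ∃ i, ‖∑ j, a j * (inner ℂ (u j) z) ^ N‖ < lam * ‖(inner ℂ (u i) z) ^ N‖} := by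
      rintro z ⟨hz1, hz2⟩
      by_contra hnot
      apply hz2
      simp only [Set.mem_ofPred_eq, not_exists, not_lt] at hnot
      obtain ⟨i, hi⟩ := hu2 z hz1
      have h1 := hnot i
      have h2 : lam * ρ ^ N ≤ ‖P z‖ := by
        calc lam * ρ ^ N ≤ lam * ‖(inner ℂ (u i) z) ^ N‖ := by
              rw [norm_pow]
              gcongr
          _ ≤ _ := h1
      rw [norm_mul, hw1, one_mul, norm_mul, Complex.norm_real, Real.norm_of_nonneg hc0.le]
      calc T = r1 ^ N * (c * (lam * ρ ^ N)) := by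
            rw [hc, hq, mul_pow]
            field_simp
        _ ≤ r1 ^ N * (c * ‖P z‖) := by gcongr
    calc ν _ ≤ ν _ := measure_mono hsub
      _ ≤ D * (ν Set.univ / ((D + 1) * M : ℕ)) := ha2
      _ ≤ ((D + 1 : ℕ) : ℝ≥0∞) * (ν Set.univ / ((D + 1) * M : ℕ)) := by
          gcongr
          exact_mod_cast Nat.le_succ D
      _ = ν Set.univ / M := by
          push_cast
          rw [← mul_div_assoc]
          rw [ENNReal.mul_div_mul_left]
          · positivity
          · exact_mod_cast ENNReal.natCast_ne_top (D + 1)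
  · exact hw2

end H457R2
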