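import Mathlib

set_option autoImplicit false
open MeasureTheory Filter Topology
open scoped ENNReal NNReal

namespace H457R2

/-- A cap-like piece of the unit sphere of a real normed space of dimension `d+1` has finite
`d`-dimensional Hausdorff measure. -/
lemma sphere_piece_lt_top {E : Type*} [NormedAddCommGroup E] [NormedSpace ℝ E]
    [FiniteDimensional ℝ E] [MeasurableSpace E] [BorelSpace E] (d : ℕ)
    (hd : Module.finrank ℝ E = d + 1) (l : E →L[ℝ] ℝ) (c : ℝ) (hc : 0 < c) :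
    (Measure.hausdorffMeasure (d : ℝ) : Measure E) {z : E | ‖z‖ = 1 ∧ c ≤ l z} < ⊤ := by
  by_cases hl : ∃ q, l q ≠ 0
  swap
  · push Not at hl
    have : {z : E | ‖z‖ = 1 ∧ c ≤ l z} = ∅ := by
      ext z
      simp only [Set.mem_ofPred_eq, Set.mem_empty_iff_false, iff_false, not_and, not_le]
      intro _
      rw [hl z]; exact hc
    rw [this]; simp
  obtain ⟨q, hq⟩ := hl
  obtain ⟨p, hp⟩ : ∃ p, l p = 1 := ⟨(l q)⁻¹ • q, by simp [hq]⟩
  set V : Submodule ℝ E := LinearMap.ker (l : E →ₗ[ℝ] ℝ) with hV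
  have hfin : Module.finrank ℝ V = d := by
    have h1 := LinearMap.finrank_range_add_finrank_ker (l : E →ₗ[ℝ] ℝ)
    have h2 : LinearMap.range (l : E →ₗ[ℝ] ℝ) = ⊤ := by
      rw [LinearMap.range_eq_top]
      intro x
      exact ⟨x • p, by simp [hp]⟩
    rw [h2] at h1
    simp only [finrank_top, Module.finrank_self] at h1
    rw [hd] at h1
    have : Module.finrank ℝ (LinearMap.ker (l : E →ₗ[ℝ] ℝ)) = d := by omega
    exact this
  have hlpos : 0 < ‖l‖ := by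
    rw [norm_pos_iff]
    intro h
    rw [h] at hp; simp at hp
  -- the map
  let Φ : V → E := fun w => ‖p + (w : E)‖⁻¹ • (p + (w : E))
  have hlow : ∀ w : V, ‖l‖⁻¹ ≤ ‖p + (w : E)‖ := by
    intro w
    have hw : l (w : E) = 0 := w.2
    have h1 : l (p + (w : E)) = 1 := by rw [map_add, hp, hw, add_zero]
    have h2 := l.le_opNorm (p + (w : E))
    rw [h1] at h2
    simp only [norm_one] at h2
    rw [inv_le_iff_one_le_mul₀ hlpos]
    linarith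
  have hLip : LipschitzWith ⟨2 * ‖l‖, by positivity⟩ Φ := by
    apply LipschitzWith.of_dist_le_mul
    intro x y
    rw [dist_eq_norm, dist_eq_norm]
    simp only [NNReal.coe_mk, Φ]
    set X : E := p + (x : E) with hX
    set Y : E := p + (y : E) with hY
    have hXl := hlow x
    have hYl := hlow y
    rw [← hX] at hXl
    rw [← hY] at hYl
    have hXpos : 0 < ‖X‖ := lt_of_lt_of_le (inv_pos.mpr hlpos) hXl
    have hYpos : 0 < ‖Y‖ := lt_of_lt_of_le (inv_pos.mpr hlpos) hYl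
    have hxy : ‖x - y‖ = ‖X - Y‖ := by
      rw [hX, hY]
      have : p + (x : E) - (p + (y : E)) = ((x - y : V) : E) := by
        push_cast; abel
      rw [this]; rfl
    rw [hxy]
    have hdec : ‖X‖⁻¹ • X - ‖Y‖⁻¹ • Y = ‖X‖⁻¹ • (X - Y) + (‖X‖⁻¹ - ‖Y‖⁻¹) • Y := by
      rw [smul_sub, sub_smul]; abel
    rw [hdec]
    have hn1 : ‖‖X‖⁻¹ • (X - Y)‖ = ‖X‖⁻¹ * ‖X - Y‖ := by
      rw [norm_smul, norm_inv, norm_norm]
    have hn2 : ‖(‖X‖⁻¹ - ‖Y‖⁻¹) • Y‖ ≤ ‖X‖⁻¹ * ‖X - Y‖ := by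
      rw [norm_smul]
      have : ‖X‖⁻¹ - ‖Y‖⁻¹ = ‖X‖⁻¹ * ‖Y‖⁻¹ * (‖Y‖ - ‖X‖) := by
        field_simp
      rw [this, norm_mul, norm_mul, norm_inv, norm_inv, norm_norm, norm_norm]
      have h3 : ‖‖Y‖ - ‖X‖‖ ≤ ‖X - Y‖ := by
        rw [← norm_neg (X - Y), neg_sub]
        exact abs_norm_sub_norm_le Y X
      have h4 : ‖X‖⁻¹ * ‖Y‖⁻¹ * ‖‖Y‖ - ‖X‖‖ * ‖Y‖ = ‖X‖⁻¹ * ‖‖Y‖ - ‖X‖‖ := by
        field_simp
      rw [h4]
      exact mul_le_mul_of_nonneg_left h3 (by positivity)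
    have hinv : ‖X‖⁻¹ ≤ ‖l‖ := by
      rw [inv_le_comm₀ hXpos hlpos]; exact hXl
    calc ‖‖X‖⁻¹ • (X - Y) + (‖X‖⁻¹ - ‖Y‖⁻¹) • Y‖
        ≤ ‖‖X‖⁻¹ • (X - Y)‖ + ‖(‖X‖⁻¹ - ‖Y‖⁻¹) • Y‖ := norm_add_le _ _
      _ ≤ ‖X‖⁻¹ * ‖X - Y‖ + ‖X‖⁻¹ * ‖X - Y‖ := by rw [hn1]; gcongr
      _ = 2 * ‖X‖⁻¹ * ‖X - Y‖ := by ring
      _ ≤ 2 * ‖l‖ * ‖X - Y‖ := by gcongr
  have hsub : {z : E | ‖z‖ = 1 ∧ c ≤ l z} ⊆ Φ '' (Metric.closedBall (0 : V) (c⁻¹ + ‖p‖)) := by
    rintro z ⟨hz1, hz2⟩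
    have hlz : 0 < l z := lt_of_lt_of_le hc hz2
    have hw : (l z)⁻¹ • z - p ∈ V := by
      rw [hV, LinearMap.mem_ker]
      simp [hp, hlz.ne']
    refine ⟨⟨(l z)⁻¹ • z - p, hw⟩, ?_, ?_⟩
    · rw [mem_closedBall_zero_iff]
      have : ‖(⟨(l z)⁻¹ • z - p, hw⟩ : V)‖ = ‖(l z)⁻¹ • z - p‖ := rfl
      rw [this]
      calc ‖(l z)⁻¹ • z - p‖ ≤ ‖(l z)⁻¹ • z‖ + ‖p‖ := norm_sub_le _ _
        _ = (l z)⁻¹ + ‖p‖ := by
            rw [norm_smul, hz1, mul_one, norm_inv, Real.norm_of_nonneg hlz.le]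
        _ ≤ c⁻¹ + ‖p‖ := by gcongr
    · simp only [Φ]
      have : p + ((l z)⁻¹ • z - p) = (l z)⁻¹ • z := by abel
      rw [this, norm_smul, hz1, mul_one, norm_inv, Real.norm_of_nonneg hlz.le, inv_inv, smul_smul,
        mul_inv_cancel₀ hlz.ne', one_smul]
  refine lt_of_le_of_lt (measure_mono hsub) ?_
  refine lt_of_le_of_lt (hLip.lipschitzOnWith.hausdorffMeasure_image_le (by positivity)) ?_
  have hcomp : (Measure.hausdorffMeasure (d : ℝ) : Measure V)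
      (Metric.closedBall (0 : V) (c⁻¹ + ‖p‖)) < ⊤ := by
    rw [← hfin]
    exact (isCompact_closedBall (0 : V) _).measure_lt_top
  apply ENNReal.mul_lt_top _ hcomp
  rw [ENNReal.rpow_natCast]
  exact ENNReal.pow_lt_top ENNReal.coe_lt_top

/-- The unit sphere of a real normed space of dimension `d+1` has finite
`d`-dimensional Hausdorff measure. -/
lemma sphere_lt_top {E : Type*} [NormedAddCommGroup E] [NormedSpace ℝ E]
    [FiniteDimensional ℝ E] [MeasurableSpace E] [BorelSpace E] (d : ℕ)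
    (hd : Module.finrank ℝ E = d + 1) :
    (Measure.hausdorffMeasure (d : ℝ) : Measure E) (Metric.sphere (0 : E) 1) < ⊤ := by
  haveI : ProperSpace E := FiniteDimensional.proper ℝ E
  apply IsCompact.measure_lt_top_of_nhdsWithin (isCompact_sphere 0 1)
  intro x hx
  have hx1 : ‖x‖ = 1 := by simpa using hx
  obtain ⟨l, hl1, hl2⟩ := exists_dual_vector ℝ x (by rw [← norm_ne_zero_iff, hx1]; norm_num)
  have hlx : l x = 1 := by rw [hl2, hx1]; simp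
  refine ⟨{z : E | ‖z‖ = 1 ∧ (1 / 2 : ℝ) ≤ l z}, ?_, sphere_piece_lt_top d hd l (1 / 2) (by norm_num)⟩
  have hopen : {z : E | (1 / 2 : ℝ) < l z} ∈ 𝓝 x := by
    apply (isOpen_lt continuous_const l.continuous).mem_nhds
    simp only [Set.mem_ofPred_eq]
    rw [hlx]; norm_num
  filter_upwards [mem_nhdsWithin_of_mem_nhds hopen, self_mem_nhdsWithin] with z hz1 hz2
  exact ⟨by simpa using hz2, le_of_lt hz1⟩

end H457R2
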